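import Pool.Agent.Lib.MP_89fcdb_gt.Interfaces
import Pool.Agent.Lib.MP_904b2a_gt.SCell
import Pool.Agent.Lib.MP_904b2a_gt.H44.Cell
import Pool.Agent.Lib.MP_904b2a_gt.H44.Kun
import Pool.Agent.Lib.MP_904b2a_gt.H41.Ball

/-!
# MP_89fcdb_gt, module FUNDS: the fundamental classes of `M` and `N`, in cohomology
-/

open scoped BigOperators
open Set Topology Metric Pool.Agent.Lib.MP_904b2a_gt

namespace Pool.Agent.Lib.MP_89fcdb_gt.H68

noncomputable section

/-! ### Vanishing: formal properties -/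

theorem Van.of_homeo {n : ℕ} {X Y : Type} [TopologicalSpace X] [TopologicalSpace Y]
    (e : X ≃ₜ Y) (h : Van n Y) : Van n X := by
  intro A _ u
  obtain ⟨v, rfl⟩ := (H.pb_bijective_of_homeomorph (n := n) (A := A) e).2 u
  rw [h A v, map_zero]

theorem Van.prodR {n d : ℕ} {X : Type} [TopologicalSpace X] (h : Van n X) :
    Van n (X × (Fin d → ℝ)) := by
  intro A _ u
  let f : C(X × (Fin d → ℝ), X) := ⟨Prod.fst, continuous_fst⟩
  let g : C(X, X × (Fin d → ℝ)) := ⟨fun x => (x, 0), by fun_prop⟩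
  have h1 : (g.comp f).Homotopic (ContinuousMap.id _) := by
    refine ⟨{ toFun := fun p => (p.2.1, (p.1 : ℝ) • p.2.2)
              continuous_toFun := by fun_prop
              map_zero_left := fun p => ?_
              map_one_left := fun p => ?_ }⟩
    · simp [f, g]
    · simp
  have h2 : (f.comp g).Homotopic (ContinuousMap.id _) := ContinuousMap.Homotopic.refl _
  obtain ⟨v, rfl⟩ := (H.pb_bijective (n := n) (A := A) h1 h2).2 u
  rw [h A v, map_zero]

theorem Van.of_contractible {n : ℕ} {X : Type} [TopologicalSpace X] [ContractibleSpace X] :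
    Van (n + 1) X := fun _ _ u => H.eq_zero_of_contractible n u

/-! ### The circle -/

/-- The circle and the unit sphere of the plane. -/
def circleHomeo : Circle ≃ₜ ES 1 where
  toFun z := ⟨Complex.orthonormalBasisOneI.repr (z : ℂ), by
    rw [mem_sphere_zero_iff_norm, LinearIsometryEquiv.norm_map]
    exact Circle.norm_coe z⟩
  invFun y := ⟨Complex.orthonormalBasisOneI.repr.symm (y : EuclideanSpace ℝ (Fin 2)), by
    refine mem_sphere_zero_iff_norm.mpr ?_
    rw [LinearIsometryEquiv.norm_map]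
    exact mem_sphere_zero_iff_norm.mp y.2⟩
  left_inv z := Subtype.ext (LinearIsometryEquiv.symm_apply_apply _ _)
  right_inv y := Subtype.ext (LinearIsometryEquiv.apply_symm_apply _ _)
  continuous_toFun := by
    refine Continuous.subtype_mk ?_ _
    exact (LinearIsometryEquiv.continuous _).comp continuous_subtype_val
  continuous_invFun := by
    refine Continuous.subtype_mk ?_ _
    exact (LinearIsometryEquiv.continuous _).comp continuous_subtype_val

theorem van_circle {k : ℕ} (hk : 2 ≤ k) : Van k Circle := by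
  refine Van.of_homeo circleHomeo ?_
  intro A _ u
  exact ((sphereCoh_of H44.sphereCellStatement).1 1 le_rfl).1.vanish A k (by omega) (by omega) u

theorem contractible_circle (x : Circle) : ContractibleSpace ({x}ᶜ : Set Circle) := by
  have h := H44.contractible_compl (E := ℂ) (⟨x.1, x.2⟩ : sphere (0 : ℂ) 1)
  exact h

theorem fund_circle (x : Circle) : Fund 1 Circle x := by
  intro A _
  have := contractible_circle x
  constructor
  · rw [injective_iff_map_eq_zero]
    intro v hv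
    obtain ⟨w, rfl⟩ := (HR.exact_R v).mp hv
    rw [HR.exact_S]
    obtain ⟨a, rfl⟩ := H0_contractible w
    exact ⟨H.const _ a, H.pb_const _ a⟩
  · intro u
    exact (HR.exact_H u).mp (H.eq_zero_of_contractible 0 _)

/-! ### Orbit spaces -/

section Orbit

variable {X : Type} [TopologicalSpace X] (T : Invol X)

theorem proj_eq_iff {x y : X} : T.proj x = T.proj y ↔ y = x ∨ y = T.τ x :=
  Quotient.eq (r := T.setoid)

theorem proj_tau (x : X) : T.proj (T.τ x) = T.proj x :=
  ((proj_eq_iff T).mpr (Or.inr rfl)).symm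

theorem proj_surjective : Function.Surjective T.proj := Quotient.mk_surjective

theorem isQuotientMap_proj : IsQuotientMap T.proj := isQuotientMap_quotient_mk'

/-- The homeomorphism induced on the orbit space. -/
def qHomeo (e : X ≃ₜ X) (h : ∀ x, e (T.τ x) = T.τ (e x)) : T.Q ≃ₜ T.Q where
  toFun := Quotient.map (sa := T.setoid) (sb := T.setoid) e (by
    rintro x y (rfl | rfl)
    · exact Or.inl rfl
    · exact Or.inr (h x))
  invFun := Quotient.map (sa := T.setoid) (sb := T.setoid) e.symm (by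
    rintro x y (rfl | rfl)
    · exact Or.inl rfl
    · refine Or.inr ?_
      rw [e.symm_apply_eq, h, e.apply_symm_apply])
  left_inv q := by
    obtain ⟨x, rfl⟩ := proj_surjective T q
    exact congrArg T.proj (e.symm_apply_apply x)
  right_inv q := by
    obtain ⟨x, rfl⟩ := proj_surjective T q
    exact congrArg T.proj (e.apply_symm_apply x)
  continuous_toFun := (isQuotientMap_proj T).continuous_iff.mpr
    (T.proj.continuous.comp e.continuous)
  continuous_invFun := (isQuotientMap_proj T).continuous_iff.mpr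
    (T.proj.continuous.comp e.symm.continuous)

theorem qHomeo_proj (e : X ≃ₜ X) (h : ∀ x, e (T.τ x) = T.τ (e x)) (x : X) :
    qHomeo T e h (T.proj x) = T.proj (e x) := rfl

end Orbit

/-! ### The use of GS -/

section GS

variable {X F F' : Type} [TopologicalSpace X] [TopologicalSpace F] [TopologicalSpace F'] {d : ℕ}

theorem gs_closed (j : C(F × (Fin d → ℝ), X)) (j' : C(F' × (Fin d → ℝ), X))
    (hj' : IsOpenEmbedding j') (hr : range j' = (j '' {p | p.2 = 0})ᶜ) :
    IsClosed (j '' {p | p.2 = 0}) := by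
  rw [← isOpen_compl_iff, ← hr]
  exact hj'.isOpen_range

theorem gs_compl {n : ℕ} (j : C(F × (Fin d → ℝ), X)) (j' : C(F' × (Fin d → ℝ), X))
    (hj' : IsOpenEmbedding j') (hr : range j' = (j '' {p | p.2 = 0})ᶜ) (h : Van n F') :
    Van n ↥(j '' {p | p.2 = 0})ᶜ := by
  let e : ↥(j '' {p | p.2 = 0})ᶜ ≃ₜ F' × (Fin d → ℝ) :=
    (Homeomorph.setCongr hr.symm).trans hj'.isEmbedding.toHomeomorph.symm
  exact Van.of_homeo e (Van.prodR h)

theorem gs_van (hGS : GSStatement) [T1Space F] (j : C(F × (Fin d → ℝ), X))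
    (j' : C(F' × (Fin d → ℝ), X)) (hj : IsOpenEmbedding j) (hj' : IsOpenEmbedding j')
    (hr : range j' = (j '' {p | p.2 = 0})ᶜ) (hd : 1 ≤ d) {m n : ℕ} (hn : m + d = n)
    (h1 : Van n F') (h2 : Van m F) : Van n X := by
  subst hn
  exact (hGS X F d m j hj hd (gs_closed j j' hj' hr)).1 (gs_compl j j' hj' hr h1) h2

theorem gs_fund (hGS : GSStatement) [T1Space F] (j : C(F × (Fin d → ℝ), X))
    (j' : C(F' × (Fin d → ℝ), X)) (hj : IsOpenEmbedding j) (hj' : IsOpenEmbedding j')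
    (hr : range j' = (j '' {p | p.2 = 0})ᶜ) (hd : 1 ≤ d) {m n : ℕ} (hn : m + d = n + 1)
    (hn' : 1 ≤ n) (h1 : Van (n + 1) F') (h2 : Van n F') (x : F) (hx : Fund m F x) :
    Fund (n + 1) X (j (x, 0)) := by
  have h := (hGS X F d m j hj hd (gs_closed j j' hj' hr)).2
  have e : m + d - 1 = n := by omega
  rw [e, hn] at h
  exact h (gs_compl j j' hj' hr h1) hn' (gs_compl j j' hj' hr h2) x hx

end GS

/-! ### `RP³` -/

/-- The exchange of the coordinates of `S³`. -/
def swS3 : S3 ≃ₜ S3 where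
  toFun q := ⟨(q.1.2, q.1.1), by rw [add_comm]; exact q.2⟩
  invFun q := ⟨(q.1.2, q.1.1), by rw [add_comm]; exact q.2⟩
  left_inv _ := rfl
  right_inv _ := rfl
  continuous_toFun := by fun_prop
  continuous_invFun := by fun_prop

/-- The exchange of the coordinates of `RP³`. -/
def swRP : RP3 ≃ₜ RP3 := qHomeo TS3 swS3 (fun _ => rfl)

theorem swRP_proj (q : S3) : swRP (TS3.proj q) = TS3.proj (swS3 q) := rfl

theorem rp_data (h : TrivRPStatement) :
    ∃ (j j' : C(Circle × (Fin 2 → ℝ), RP3)), IsOpenEmbedding j ∧ IsOpenEmbedding j' ∧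
      range j' = (j '' {p | p.2 = 0})ᶜ := by
  obtain ⟨j, hj, h1, h2⟩ := h
  refine ⟨j, (swRP : C(RP3, RP3)).comp j, hj, swRP.isOpenEmbedding.comp hj, ?_⟩
  have hZ : ∀ q : S3, TS3.proj q ∈ j '' {p | p.2 = 0} ↔ q.1.2 = 0 := by
    intro q
    constructor
    · rintro ⟨⟨w, t⟩, ht, hq⟩
      exact (h2 q w t hq).mp ht
    · intro hq
      have h3 : q.1.1 ≠ 0 := by
        intro h0
        have := q.2
        rw [h0, hq] at this
        simp at this
      obtain ⟨⟨w, t⟩, hwt⟩ := (h1 q).mpr h3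
      exact ⟨(w, t), (h2 q w t hwt).mpr hq, hwt⟩
  have hR : ∀ q : S3, TS3.proj q ∈ range ((swRP : C(RP3, RP3)).comp j) ↔ q.1.2 ≠ 0 := by
    intro q
    have h3 := h1 (swS3 q)
    rw [← show (swS3 q).1.1 = q.1.2 from rfl, ← h3]
    constructor
    · rintro ⟨p, hp⟩
      refine ⟨p, ?_⟩
      have h4 := congrArg swRP.symm (show swRP (j p) = TS3.proj q from hp)
      rw [swRP.symm_apply_apply] at h4
      exact h4
    · rintro ⟨p, hp⟩
      refine ⟨p, ?_⟩
      change swRP (j p) = _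
      rw [hp]
      rfl
  ext x
  obtain ⟨q, rfl⟩ := proj_surjective TS3 x
  rw [hR q, mem_compl_iff, hZ q]

theorem van_rp (hGS : GSStatement) (h : TrivRPStatement) {k : ℕ} (hk : 4 ≤ k) : Van k RP3 := by
  obtain ⟨j, j', hj, hj', hr⟩ := rp_data h
  exact gs_van hGS j j' hj hj' hr (by norm_num) (m := k - 2) (by omega)
    (van_circle (by omega)) (van_circle (by omega))

theorem fund_rp (hGS : GSStatement) (h : TrivRPStatement) : ∃ x : RP3, Fund 3 RP3 x := by
  obtain ⟨j, j', hj, hj', hr⟩ := rp_data h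
  exact ⟨_, gs_fund hGS j j' hj hj' hr (by norm_num) (m := 1) rfl (by norm_num)
    (van_circle (by norm_num)) (van_circle (by norm_num)) 1 (fund_circle 1)⟩

/-! ### `RP³ × S³` -/

/-- A point of the sphere. -/
def q0 : S3 := ⟨(1, 0), by simp⟩

theorem rps_data (h : TrivS3Statement) :
    ∃ (j j' : C(RP3 × (Fin 3 → ℝ), RP3 × S3)), IsOpenEmbedding j ∧ IsOpenEmbedding j' ∧
      range j' = (j '' {p | p.2 = 0})ᶜ := by
  obtain ⟨j, hj, h0, hr⟩ := h q0
  obtain ⟨j', hj', -, hr'⟩ := h (TS3.τ q0)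
  rw [TS3.sq] at hr'
  refine ⟨⟨Prod.map id j, continuous_id.prodMap hj.continuous⟩,
    ⟨Prod.map id j', continuous_id.prodMap hj'.continuous⟩, IsOpenEmbedding.id.prodMap hj,
    IsOpenEmbedding.id.prodMap hj', ?_⟩
  ext ⟨x, p⟩
  have h1 : (x, p) ∈ range (Prod.map (id : RP3 → RP3) j') ↔ p ≠ q0 := by
    rw [range_prodMap, mem_prod, hr']
    simp
  have h2 : (x, p) ∈ Prod.map (id : RP3 → RP3) j '' {p | p.2 = 0} ↔ p = q0 := by
    constructor
    · rintro ⟨⟨y, t⟩, ht, hyt⟩
      have h3 : t = 0 := ht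
      subst h3
      have h4 : j 0 = p := congrArg Prod.snd hyt
      rw [← h4, h0]
    · rintro rfl
      exact ⟨(x, 0), rfl, by rw [Prod.map_apply, h0, id]⟩
  exact h1.trans (not_congr h2).symm

theorem van_rps (hGS : GSStatement) (hRP : TrivRPStatement) (hS : TrivS3Statement)
    [T1Space RP3] {k : ℕ} (hk : 7 ≤ k) : Van k (RP3 × S3) := by
  obtain ⟨j, j', hj, hj', hr⟩ := rps_data hS
  exact gs_van hGS j j' hj hj' hr (by norm_num) (m := k - 3) (by omega)
    (van_rp hGS hRP (by omega)) (van_rp hGS hRP (by omega))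

theorem fund_rps (hGS : GSStatement) (hRP : TrivRPStatement) (hS : TrivS3Statement)
    [T1Space RP3] : ∃ x : RP3 × S3, Fund 6 (RP3 × S3) x := by
  obtain ⟨j, j', hj, hj', hr⟩ := rps_data hS
  obtain ⟨x, hx⟩ := fund_rp hGS hRP
  exact ⟨_, gs_fund hGS j j' hj hj' hr (by norm_num) (m := 3) rfl (by norm_num)
    (van_rp hGS hRP (by norm_num)) (van_rp hGS hRP (by norm_num)) x hx⟩

/-! ### `M` -/

/-- The symmetry of `B`. -/
def syB : B ≃ₜ B where
  toFun b := ⟨(-b.1.1, (starRingEnd ℂ) b.1.2.1, (b.1.2.2.2.1, b.1.2.2.1, b.1.2.2.2.2)), by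
    obtain ⟨⟨r, z, u⟩, h1, h2, h3, h4⟩ := b
    refine ⟨?_, ?_, ?_, ?_⟩
    · simpa using h1
    · have h5 : Complex.normSq u.1 + Complex.normSq u.2.1 + Complex.normSq u.2.2 = 1 := h2
      change Complex.normSq u.2.1 + Complex.normSq u.1 + Complex.normSq u.2.2 = 1
      linarith
    · simpa using h4
    · simpa [sub_eq_add_neg] using h3⟩
  invFun b := ⟨(-b.1.1, (starRingEnd ℂ) b.1.2.1, (b.1.2.2.2.1, b.1.2.2.1, b.1.2.2.2.2)), by
    obtain ⟨⟨r, z, u⟩, h1, h2, h3, h4⟩ := b
    refine ⟨?_, ?_, ?_, ?_⟩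
    · simpa using h1
    · have h5 : Complex.normSq u.1 + Complex.normSq u.2.1 + Complex.normSq u.2.2 = 1 := h2
      change Complex.normSq u.2.1 + Complex.normSq u.1 + Complex.normSq u.2.2 = 1
      linarith
    · simpa using h4
    · simpa [sub_eq_add_neg] using h3⟩
  left_inv b := by
    apply Subtype.ext
    simp
  right_inv b := by
    apply Subtype.ext
    simp
  continuous_toFun := by fun_prop
  continuous_invFun := by fun_prop

theorem syB_fst (b : B) : (syB b).1.1 = -b.1.1 := rfl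

theorem m_data (h : TrivBStatement) :
    ∃ (j j' : C((RP3 × S3) × (Fin 2 → ℝ), M8)), IsOpenEmbedding j ∧ IsOpenEmbedding j' ∧
      range j' = (j '' {p | p.2 = 0})ᶜ := by
  obtain ⟨j, hj, hr, h0⟩ := h
  let e : (RP3 × S3) × (Fin 2 → ℝ) ≃ₜ RP3 × (S3 × (Fin 2 → ℝ)) := Homeomorph.prodAssoc _ _ _
  have hj' : IsOpenEmbedding (fun p => syB (j p)) := syB.isOpenEmbedding.comp hj
  refine ⟨⟨fun p => (p.1.1, j (p.1.2, p.2)), by fun_prop⟩,
    ⟨fun p => (p.1.1, syB (j (p.1.2, p.2))), by fun_prop⟩,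
    (IsOpenEmbedding.id.prodMap hj).comp e.isOpenEmbedding,
    (IsOpenEmbedding.id.prodMap hj').comp e.isOpenEmbedding, ?_⟩
  have hZ : ∀ (x : RP3) (b : B), (x, b) ∈ (fun p : (RP3 × S3) × (Fin 2 → ℝ) =>
      (p.1.1, j (p.1.2, p.2))) '' {p | p.2 = 0} ↔ b.1.1 = 1 := by
    intro x b
    constructor
    · rintro ⟨⟨⟨y, w⟩, t⟩, ht, hyt⟩
      have h4 : j (w, t) = b := congrArg Prod.snd hyt
      rw [← h4]
      exact (h0 w t).mp ht
    · intro hb
      have h5 : b ∈ range j := by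
        rw [hr, mem_ofPred_eq, hb]
        norm_num
      obtain ⟨⟨w, t⟩, rfl⟩ := h5
      exact ⟨((x, w), t), (h0 w t).mpr hb, rfl⟩
  have hR : ∀ (x : RP3) (b : B), (x, b) ∈ range (fun p : (RP3 × S3) × (Fin 2 → ℝ) =>
      (p.1.1, syB (j (p.1.2, p.2)))) ↔ b.1.1 ≠ 1 := by
    intro x b
    have h5 : syB.symm b ∈ range j ↔ b.1.1 ≠ 1 := by
      rw [hr, mem_ofPred_eq]
      change -b.1.1 ≠ -1 ↔ _
      rw [ne_eq, neg_inj]
    rw [← h5]
    constructor
    · rintro ⟨⟨⟨y, w⟩, t⟩, hyt⟩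
      have h4 : syB (j (w, t)) = b := congrArg Prod.snd hyt
      rw [← h4, syB.symm_apply_apply]
      exact ⟨_, rfl⟩
    · rintro ⟨⟨w, t⟩, hwt⟩
      refine ⟨((x, w), t), ?_⟩
      change (x, syB (j (w, t))) = (x, b)
      rw [hwt, syB.apply_symm_apply]
  ext ⟨x, b⟩
  exact (hR x b).trans (not_congr (hZ x b)).symm

theorem fund_m (hGS : GSStatement) (hRP : TrivRPStatement) (hS : TrivS3Statement)
    (hB : TrivBStatement) [T1Space RP3] : ∃ x : M8, Fund 8 M8 x := by
  obtain ⟨j, j', hj, hj', hr⟩ := m_data hB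
  obtain ⟨x, hx⟩ := fund_rps hGS hRP hS
  exact ⟨_, gs_fund hGS j j' hj hj' hr (by norm_num) (m := 6) rfl (by norm_num)
    (van_rps hGS hRP hS (by norm_num)) (van_rps hGS hRP hS (by norm_num)) x hx⟩

/-! ### `N` -/

/-- The map `(u, v) ↦ (-u, v)`. -/
def syP : P ≃ₜ P where
  toFun p := ⟨(-p.1.1, p.1.2), by rw [n3_neg]; exact p.2.1, p.2.2.1, by
    have h := p.2.2.2
    unfold h3 at h ⊢
    simp only [Prod.fst_neg, Prod.snd_neg, map_neg]
    linear_combination -h⟩
  invFun p := ⟨(-p.1.1, p.1.2), by rw [n3_neg]; exact p.2.1, p.2.2.1, by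
    have h := p.2.2.2
    unfold h3 at h ⊢
    simp only [Prod.fst_neg, Prod.snd_neg, map_neg]
    linear_combination -h⟩
  left_inv p := Subtype.ext (Prod.ext (neg_neg _) rfl)
  right_inv p := Subtype.ext (Prod.ext (neg_neg _) rfl)
  continuous_toFun := by fun_prop
  continuous_invFun := by fun_prop

/-- The map induced by `(u, v) ↦ (-u, v)`. -/
def syN : N8 ≃ₜ N8 := qHomeo TP syP (fun _ => rfl)

theorem n_data (h : TrivPStatement) (hoS : IsOpenMap TS3.proj) (hoP : IsOpenMap TP.proj) :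
    ∃ (j j' : C(RP3 × (Fin 5 → ℝ), N8)), IsOpenEmbedding j ∧ IsOpenEmbedding j' ∧
      range j' = (j '' {p | p.2 = 0})ᶜ := by
  obtain ⟨j, hj, hr, hτ, -, h0, -⟩ := h
  -- the quotient map
  have hq : IsQuotientMap (Prod.map TS3.proj (id : (Fin 5 → ℝ) → (Fin 5 → ℝ))) :=
    (hoS.prodMap IsOpenMap.id).isQuotientMap (TS3.proj.continuous.prodMap continuous_id)
      ((proj_surjective TS3).prodMap Function.surjective_id)
  let J : RP3 × (Fin 5 → ℝ) → N8 := fun p => Quotient.liftOn p.1 (fun w => TP.proj (j (w, p.2)))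
    (by
      rintro w w' (rfl | rfl)
      · rfl
      · change TP.proj (j (w, p.2)) = TP.proj (j (TS3.τ w, p.2))
        rw [hτ, proj_tau])
  have hJ : ∀ (w : S3) (t : Fin 5 → ℝ), J (TS3.proj w, t) = TP.proj (j (w, t)) := fun _ _ => rfl
  have hJc : Continuous J := by
    rw [hq.continuous_iff]
    exact TP.proj.continuous.comp j.continuous
  have hJi : Function.Injective J := by
    rintro ⟨x, t⟩ ⟨x', t'⟩ hxx
    obtain ⟨w, rfl⟩ := proj_surjective TS3 x
    obtain ⟨w', rfl⟩ := proj_surjective TS3 x'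
    rw [hJ, hJ, proj_eq_iff, ← hτ] at hxx
    rcases hxx with h | h
    · have h5 := hj.injective h
      rw [Prod.mk.injEq] at h5
      rw [h5.1, h5.2]
    · have h5 := hj.injective h
      rw [Prod.mk.injEq] at h5
      rw [h5.1, h5.2, proj_tau]
  have hJo : IsOpenMap J := by
    intro U hU
    have e : J '' U = TP.proj '' (j '' (Prod.map TS3.proj id ⁻¹' U)) := by
      ext y
      constructor
      · rintro ⟨⟨x, t⟩, hx, rfl⟩
        obtain ⟨w, rfl⟩ := proj_surjective TS3 x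
        exact ⟨_, ⟨(w, t), hx, rfl⟩, rfl⟩
      · rintro ⟨_, ⟨⟨w, t⟩, hx, rfl⟩, rfl⟩
        exact ⟨(TS3.proj w, t), hx, rfl⟩
    rw [e]
    exact hoP _ (hj.isOpenMap _ (hU.preimage (TS3.proj.continuous.prodMap continuous_id)))
  have hJe : IsOpenEmbedding J := .of_continuous_injective_isOpenMap hJc hJi hJo
  refine ⟨⟨J, hJc⟩, (syN : C(N8, N8)).comp ⟨J, hJc⟩, hJe, syN.isOpenEmbedding.comp hJe, ?_⟩
  have hZ : ∀ p : P, TP.proj p ∈ J '' {p | p.2 = 0} ↔ p.1.1.1 = 1 := by
    intro p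
    constructor
    · rintro ⟨⟨x, t⟩, ht, hxt⟩
      obtain ⟨w, rfl⟩ := proj_surjective TS3 x
      rw [hJ, proj_eq_iff] at hxt
      have h5 := (h0 w t).mp ht
      rcases hxt with h | h
      · rw [h]
        exact h5
      · rw [h]
        exact h5
    · intro hp
      have h5 : p ∈ range j := by
        rw [hr, mem_ofPred_eq, hp]
        norm_num
      obtain ⟨⟨w, t⟩, rfl⟩ := h5
      exact ⟨(TS3.proj w, t), (h0 w t).mpr hp, rfl⟩
  have hR : ∀ p : P, TP.proj p ∈ range ((syN : C(N8, N8)).comp ⟨J, hJc⟩) ↔ p.1.1.1 ≠ 1 := by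
    intro p
    have h5 : syP.symm p ∈ range j ↔ p.1.1.1 ≠ 1 := by
      rw [hr, mem_ofPred_eq]
      change -p.1.1.1 ≠ -1 ↔ _
      rw [ne_eq, neg_inj]
    rw [← h5]
    constructor
    · rintro ⟨⟨x, t⟩, hxt⟩
      obtain ⟨w, rfl⟩ := proj_surjective TS3 x
      change TP.proj (syP (j (w, t))) = TP.proj p at hxt
      rw [proj_eq_iff] at hxt
      rcases hxt with h | h
      · rw [h, syP.symm_apply_apply]
        exact ⟨_, rfl⟩
      · refine ⟨(TS3.τ w, t), ?_⟩
        rw [h, hτ, Homeomorph.eq_symm_apply]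
        rfl
    · rintro ⟨⟨w, t⟩, hwt⟩
      refine ⟨(TS3.proj w, t), ?_⟩
      change TP.proj (syP (j (w, t))) = TP.proj p
      rw [hwt, syP.apply_symm_apply]
  ext x
  obtain ⟨p, rfl⟩ := proj_surjective TP x
  rw [hR p, mem_compl_iff]
  exact (not_congr (hZ p)).symm

theorem fund_n (hGS : GSStatement) (hRP : TrivRPStatement) (hP : TrivPStatement)
    (hoS : IsOpenMap TS3.proj) (hoP : IsOpenMap TP.proj) [T1Space RP3] :
    ∃ x : N8, Fund 8 N8 x := by
  obtain ⟨j, j', hj, hj', hr⟩ := n_data hP hoS hoP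
  obtain ⟨x, hx⟩ := fund_rp hGS hRP
  exact ⟨_, gs_fund hGS j j' hj hj' hr (by norm_num) (m := 3) rfl (by norm_num)
    (van_rp hGS hRP (by norm_num)) (van_rp hGS hRP (by norm_num)) x hx⟩

/-- Module FUNDS. -/
theorem fundStatement_of (hGS : GSStatement) (hS : TrivS3Statement) (hP : TrivPStatement)
    (hB : TrivBStatement) (hRP : TrivRPStatement) (hTop : TopStatement)
    (hQ : QuotStatement) : FundStatement := by
  obtain ⟨⟨cS, -⟩, ⟨cP, -⟩, -⟩ := hTop
  obtain ⟨-, t2, oS, -, -⟩ := hQ S3 TS3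
  obtain ⟨-, -, oP, -, -⟩ := hQ P TP
  exact ⟨fund_m hGS hRP hS hB, fund_n hGS hRP hP oS oP⟩

end

end Pool.Agent.Lib.MP_89fcdb_gt.H68
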